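import Pool.Agent.H75.GG.Targets2

/-!
# MP_0f8dca_lc, row AD1 of gsg_modules: the next special string is queried, or the remaining special
rows are known
-/

set_option autoImplicit false

namespace Pool.Agent.H54.GG

open Finset Filter Pool.Agent.H6.NB Pool.Agent.H70.OQ Pool.Agent.H75.GS Pool.Agent.H75.GG

theorem ic_nonneg' (p : Prop) : 0 ≤ ic p := by
  classical
  unfold ic
  split_ifs <;> norm_num

theorem ic_true {p : Prop} (h : p) : ic p = 1 := by
  classical
  unfold ic
  rw [if_pos h]

theorem ic_false {p : Prop} (h : ¬ p) : ic p = 0 := by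
  classical
  unfold ic
  rw [if_neg h]

theorem mg_le {G : Dat} {n : ℕ} (OT : List Bool → Bool) (y : Spc G n) (F : Finset (Fin (G.r n)))
    (Q : QAlg) : mg Q (OF OT y F) (OF OT y univ) ≤
      ∑ j ∈ univ.filter (fun j => j ∉ F), qm Q (OF OT y F) (ust y j) := by
  classical
  have h0 : ∑ j ∈ univ.filter (fun j => j ∉ F), qm Q (OF OT y F) (ust y j) =
      ∑ t ∈ range Q.T, ∑ z, (∑ j ∈ univ.filter (fun j => j ∉ F),
        ic (Q.query z = some (ust y j))) * ‖Q.state (OF OT y F) t z‖ ^ 2 := by
    unfold qm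
    rw [Finset.sum_comm]
    refine Finset.sum_congr rfl fun t _ => ?_
    rw [Finset.sum_comm]
    refine Finset.sum_congr rfl fun z _ => ?_
    rw [Finset.sum_mul]
  rw [h0]
  unfold mg
  refine Finset.sum_le_sum fun t _ => ?_
  refine Finset.sum_le_sum fun z _ => ?_
  refine mul_le_mul_of_nonneg_right ?_ (sq_nonneg _)
  by_cases h : ∃ w, Q.query z = some w ∧ OF OT y univ w ≠ OF OT y F w
  · rw [ic_true h]
    obtain ⟨w, hw, hne⟩ := h
    have h1 : ∃ k, w = ust y k ∧ k ∉ F := by
      by_contra hc
      push Not at hc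
      apply hne
      unfold OF
      congr 1
      refine decide_eq_decide.2 ⟨?_, ?_⟩
      · rintro ⟨k, -, hk⟩
        exact ⟨k, hc k hk, hk⟩
      · rintro ⟨k, -, hk⟩
        exact ⟨k, Finset.mem_univ k, hk⟩
    obtain ⟨k, hk, hkF⟩ := h1
    have h2 : Q.query z = some (ust y k) := by rw [hw, hk]
    calc (1 : ℝ) = ic (Q.query z = some (ust y k)) := (ic_true h2).symm
      _ ≤ _ := Finset.single_le_sum (f := fun j => ic (Q.query z = some (ust y j)))
        (fun j _ => ic_nonneg' _) (Finset.mem_filter.2 ⟨Finset.mem_univ k, hkF⟩)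
  · rw [ic_false h]
    exact Finset.sum_nonneg fun j _ => ic_nonneg' _

/-- AD1: the next special string is queried, or the remaining special rows are known. -/
theorem pf_AD1 (hBBH : T_BBH) (hQMS : T_QMS) : T_AD1 := by
  classical
  intro G n b OT y Q τ hτ hT hCo F
  by_cases hcase : ∃ j ∉ F, ∃ x, 1 / (577 * τ * G.r n) ≤ qm (Q x) (OF OT y F) (ust y j)
  · exact Or.inl hcase
  · right
    push Not at hcase
    intro x hb
    have hr : (0 : ℝ) < G.r n := by
      have h1 := (G.lab n x).2
      have h2 : 0 < G.r n := by omega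
      exact_mod_cast h2
    have hmg : mg (Q x) (OF OT y F) (OF OT y univ) ≤ 1 / (577 * τ) := by
      refine (mg_le OT y F (Q x)).trans ?_
      have h1 : ∑ j ∈ univ.filter (fun j => j ∉ F), qm (Q x) (OF OT y F) (ust y j) ≤
          ∑ j ∈ univ.filter (fun j => j ∉ F), 1 / (577 * τ * G.r n) :=
        Finset.sum_le_sum fun j hj => (hcase j (Finset.mem_filter.1 hj).2 x).le
      refine h1.trans ?_
      rw [Finset.sum_const, nsmul_eq_mul]
      have h2 : ((univ.filter fun j : Fin (G.r n) => j ∉ F).card : ℝ) ≤ G.r n := by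
        have h3 := Finset.card_le_univ (univ.filter fun j : Fin (G.r n) => j ∉ F)
        rw [Fintype.card_fin] at h3
        exact_mod_cast h3
      calc ((univ.filter fun j : Fin (G.r n) => j ∉ F).card : ℝ) * (1 / (577 * τ * G.r n)) ≤
            G.r n * (1 / (577 * τ * G.r n)) :=
            mul_le_mul_of_nonneg_right h2 (by positivity)
        _ = 1 / (577 * τ) := by field_simp
    obtain ⟨h0, -, -, h4⟩ := hBBH (Q x) (OF OT y F) (OF OT y univ)
    have hlt : 4 * √((Q x).T * mg (Q x) (OF OT y F) (OF OT y univ)) < 1 / 6 := by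
      have h5 : ((Q x).T : ℝ) * mg (Q x) (OF OT y F) (OF OT y univ) ≤ 1 / 577 := by
        calc ((Q x).T : ℝ) * mg (Q x) (OF OT y F) (OF OT y univ) ≤ τ * (1 / (577 * τ)) :=
              mul_le_mul (hT x) hmg h0 hτ.le
          _ = 1 / 577 := by field_simp
      have h6 : √((Q x).T * mg (Q x) (OF OT y F) (OF OT y univ)) < 1 / 24 := by
        rw [Real.sqrt_lt' (by norm_num)]
        refine h5.trans_lt ?_
        norm_num
      linarith
    have habs := abs_lt.1 (h4.trans_lt hlt)
    obtain ⟨hc1, hc2⟩ := hCo x hb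
    constructor
    · intro h
      by_contra hne
      have := hc2 hne
      linarith [habs.1]
    · intro h
      have := hc1 h
      linarith [habs.2]

end Pool.Agent.H54.GG
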