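import Pool.Agent.H75.GG.Targets2

/-!
# MP_0f8dca_lc, row DCE of gsg_modules: the keys can mostly be read
-/

set_option autoImplicit false

namespace Pool.Agent.H54.GG

open Finset Filter Pool.Agent.H6.NB Pool.Agent.H70.OQ Pool.Agent.H75.GS Pool.Agent.H75.GG

/-- DCE: the keys can mostly be read. -/
theorem pf_DCE (hDCP : Pool.Agent.H6.NB.T_DCP) (hNUM : Pool.Agent.H6.NB.T_NUM) : T_DCE := by
  intro G s ω
  have h1 : ∀ b : Bool, ∑ P : Fin (ns s) → VV (qs s) → Bool, (∏ i, mu b (qs s) (P i)) *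
      ic (¬ DecA (qs s) (ns s) b P) ≤ (1 / 4) ^ s.length := by
    intro b
    refine le_trans (le_of_eq ?_) ((hDCP (qs s) (ns s) b).trans (hNUM s).2)
    refine Finset.sum_congr rfl fun P _ => ?_
    congr 1
    unfold ic
    by_cases h : DecA (qs s) (ns s) b P
    · rw [if_neg (not_not.2 h), if_pos h]
    · rw [if_pos h, if_neg h]
  have h2 : ∀ c : Bool × (Fin (ns s) → VV (qs s) → Bool),
      DcS (Function.update ω (.inr s) (c : Val G (.inr s))) s ↔
        DecA (qs s) (ns s) c.1 c.2 := by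
    intro c
    unfold DcS cfK cfP
    rw [Function.update_self]
  have h3 : ∑ c : Val G (.inr s), wgt G (.inr s) c *
      ic (¬ DcS (Function.update ω (.inr s) c) s) =
      ∑ c : Bool × (Fin (ns s) → VV (qs s) → Bool), (1 / 2 * ∏ i, mu c.1 (qs s) (c.2 i)) *
        ic (¬ DecA (qs s) (ns s) c.1 c.2) := by
    refine Finset.sum_congr rfl fun c _ => ?_
    have h4 : ic (¬ DcS (Function.update ω (.inr s) c) s) =
        ic (¬ DecA (qs s) (ns s) (c : Bool × (Fin (ns s) → VV (qs s) → Bool)).1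
          (c : Bool × (Fin (ns s) → VV (qs s) → Bool)).2) := by
      congr 1
      exact propext (not_congr (h2 c))
    rw [h4]
    rfl
  rw [h3, Fintype.sum_prod_type, Fintype.sum_bool]
  have h5 : ∀ b : Bool, ∑ P : Fin (ns s) → VV (qs s) → Bool, (1 / 2 * ∏ i, mu b (qs s) (P i)) *
      ic (¬ DecA (qs s) (ns s) b P) = 1 / 2 * ∑ P : Fin (ns s) → VV (qs s) → Bool,
        (∏ i, mu b (qs s) (P i)) * ic (¬ DecA (qs s) (ns s) b P) := by
    intro b
    rw [Finset.mul_sum]
    exact Finset.sum_congr rfl fun P _ => mul_assoc _ _ _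
  simp only [h5]
  have h6 := h1 true
  have h7 := h1 false
  linarith

end Pool.Agent.H54.GG
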