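import Pool.Agent.H75.GG.Targets2

/-!
# MP_0f8dca_lc, row EXS of gsg_modules: the extended oracles
-/

set_option autoImplicit false

namespace Pool.Agent.H54.GG

open Finset Filter Pool.Agent.H6.NB Pool.Agent.H70.OQ Pool.Agent.H75.GS Pool.Agent.H75.GG

/-- EXS: the extended oracles. -/
theorem pf_EXS (hUNX : T_UNX) (hLAK : T_LAK) : T_EXS := by
  classical
  intro κ V acc d n N hacc w hw
  rcases w with _ | ⟨b, s⟩
  · left
    intro O O' _
    rfl
  · rw [List.length_cons] at hw
    rcases b with _ | _
    · right
      left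
      exact ⟨s, by omega, fun O => rfl⟩
    · by_cases hs : s.length < n ^ 2
      · left
        intro O O' hO
        obtain ⟨K, prog, hS, hU⟩ := hUNX κ V d
        have hloc := hLAK K prog hS
        have h1 : ∀ w : List Bool, w.length ^ 2 ≤ s.length → O w = O' w := by
          intro w hw'
          exact hO w (lt_of_pow_lt_pow_left₀ 2 (Nat.zero_le n) (hw'.trans_lt hs))
        have h2 := hloc s O O' h1
        have h3 : (∃ i < d, ∃ x, s = inst (V i).c i x ∧ x ∈ (V i).lang O) ↔
            ∃ i < d, ∃ x, s = inst (V i).c i x ∧ x ∈ (V i).lang O' := by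
          constructor
          · rintro ⟨i, hi, x, hx, hl⟩
            refine ⟨i, hi, x, hx, ?_⟩
            rw [hU i hi.le, ← hx] at hl ⊢
            exact h2.1 hl
          · rintro ⟨i, hi, x, hx, hl⟩
            refine ⟨i, hi, x, hx, ?_⟩
            rw [hU i hi.le, ← hx] at hl ⊢
            exact h2.2 hl
        simp only [Pool.Agent.H75.GS.ext]
        exact decide_eq_decide.2 h3
      · right
        right
        refine ⟨s, by omega, ∃ i < d, ∃ x, s = inst (V i).c i x, fun O => ?_⟩
        simp only [Pool.Agent.H75.GS.ext, decide_eq_true_eq]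
        have hs' : n ^ 2 ≤ s.length := not_lt.1 hs
        constructor
        · rintro ⟨i, hi, x, hx, hl⟩
          refine ⟨⟨i, hi, x, hx⟩, ?_⟩
          have h1 := hacc i hi x O (by rw [← hx]; exact hs')
          rw [← hx] at h1
          exact h1.1 hl
        · rintro ⟨⟨i, hi, x, hx⟩, ha⟩
          refine ⟨i, hi, x, hx, ?_⟩
          have h1 := hacc i hi x O (by rw [← hx]; exact hs')
          rw [← hx] at h1
          exact h1.2 ha

end Pool.Agent.H54.GG
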