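import Pool.Agent.H64.GG.TB

set_option autoImplicit false

/-!
# Row KAB: the abelian part of a normal subfield of a level field
-/

namespace Pool.Agent.H54.GG

open NumberField Height Finset Polynomial Pool.Agent.H24.RD Pool.Agent.H23.RDD Pool.Agent.H29.RQ
  Pool.Agent.H29.SX Pool.Agent.H29.LG Pool.Agent.H64.GG

/-- An automorphism which fixes the intersection of a finite normal extension `L` with `E` is the
product of an automorphism which fixes `L` and of an automorphism which fixes `E`. -/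
theorem split_aut {k Ω : Type} [Field k] [Field Ω] [Algebra k Ω] [IsGalois k Ω]
    (L E : IntermediateField k Ω) [FiniteDimensional k L]
    (hL : ∀ τ : Ω ≃ₐ[k] Ω, ∀ z ∈ L, τ z ∈ L) (σ : Ω ≃ₐ[k] Ω)
    (hσ : ∀ z ∈ L, z ∈ E → σ z = z) :
    ∃ h τ : Ω ≃ₐ[k] Ω, (∀ z ∈ L, h z = z) ∧ (∀ z ∈ E, τ z = z) ∧ ∀ z, σ z = h (τ z) := by
  have hnorm : L.fixingSubgroup.Normal := by
    constructor
    intro n hn g
    rw [IntermediateField.mem_fixingSubgroup_iff] at hn ⊢
    intro z hz
    have h1 : g⁻¹ z ∈ L := hL g⁻¹ z hz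
    have h2 := hn _ h1
    show g (n (g⁻¹ z)) = z
    rw [h2]
    exact AlgEquiv.apply_symm_apply g z
  have hopen : IsOpen (L.fixingSubgroup : Set (Ω ≃ₐ[k] Ω)) := L.fixingSubgroup_isOpen
  have hopen2 : IsOpen ((L.fixingSubgroup ⊔ E.fixingSubgroup : Subgroup (Ω ≃ₐ[k] Ω)) :
      Set (Ω ≃ₐ[k] Ω)) := Subgroup.isOpen_mono le_sup_left hopen
  have hclosed : IsClosed ((L.fixingSubgroup ⊔ E.fixingSubgroup : Subgroup (Ω ≃ₐ[k] Ω)) :
      Set (Ω ≃ₐ[k] Ω)) := Subgroup.isClosed_of_isOpen _ hopen2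
  have hfix : (IntermediateField.fixedField (L.fixingSubgroup ⊔ E.fixingSubgroup)).fixingSubgroup =
      L.fixingSubgroup ⊔ E.fixingSubgroup := InfiniteGalois.fixingSubgroup_fixedField
    (k := k) (K := Ω) ⟨L.fixingSubgroup ⊔ E.fixingSubgroup, hclosed⟩
  have hmem : σ ∈ (L.fixingSubgroup ⊔ E.fixingSubgroup : Subgroup (Ω ≃ₐ[k] Ω)) := by
    rw [← hfix, IntermediateField.mem_fixingSubgroup_iff]
    intro z hz
    rw [IntermediateField.mem_fixedField_iff] at hz
    apply hσ z
    · have h1 : z ∈ IntermediateField.fixedField L.fixingSubgroup := by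
        rw [IntermediateField.mem_fixedField_iff]
        exact fun f hf => hz f (Subgroup.mem_sup_left hf)
      rwa [InfiniteGalois.fixedField_fixingSubgroup] at h1
    · have h1 : z ∈ IntermediateField.fixedField E.fixingSubgroup := by
        rw [IntermediateField.mem_fixedField_iff]
        exact fun f hf => hz f (Subgroup.mem_sup_right hf)
      rwa [InfiniteGalois.fixedField_fixingSubgroup] at h1
  have h2 : σ ∈ ((L.fixingSubgroup ⊔ E.fixingSubgroup : Subgroup (Ω ≃ₐ[k] Ω)) :
      Set (Ω ≃ₐ[k] Ω)) := hmem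
  rw [Subgroup.normal_mul] at h2
  obtain ⟨h, hh, τ, hτ, hmul⟩ := Set.mem_mul.mp h2
  refine ⟨h, τ, (IntermediateField.mem_fixingSubgroup_iff _ _).mp hh,
    (IntermediateField.mem_fixingSubgroup_iff _ _).mp hτ, fun z => ?_⟩
  rw [← hmul]
  rfl

/-- The cyclotomic field is finite over the rational numbers. -/
theorem CY_fin (m : ℕ) (hm : 0 < m) : FiniteDimensional ℚ (CY m) := by
  classical
  have hM1 : NeZero m := ⟨hm.ne'⟩
  have h0 : Algebra.IsAlgebraic ℚ Om := AlgebraicClosure.isAlgebraic ℚ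
  have hfin : ({z : Om | z ^ m = 1}).Finite := by
    have h1 : (X ^ m - C (1 : Om)) ≠ 0 := X_pow_sub_C_ne_zero hm 1
    refine ((X ^ m - C (1 : Om)).roots.toFinset.finite_toSet).subset ?_
    intro z hz
    rw [Finset.mem_coe, Multiset.mem_toFinset, mem_roots h1]
    simp only [IsRoot.def, eval_sub, eval_pow, eval_X, eval_C]
    exact sub_eq_zero.mpr hz
  unfold CY
  have : Finite ({z : Om | z ^ m = 1} : Set Om) := hfin
  exact IntermediateField.finiteDimensional_adjoin fun z _ => Algebra.IsIntegral.isIntegral z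

/-- The cyclotomic field is stable under automorphisms. -/
theorem CY_stable (m : ℕ) (τ : Om ≃ₐ[ℚ] Om) (z : Om) (hz : z ∈ CY m) : τ z ∈ CY m := by
  unfold CY at hz ⊢
  induction hz using IntermediateField.adjoin_induction with
  | mem x hx =>
    apply IntermediateField.subset_adjoin
    show τ x ^ m = 1
    rw [← map_pow, show x ^ m = 1 from hx, map_one]
  | algebraMap x =>
    rw [AlgEquiv.commutes]
    exact IntermediateField.algebraMap_mem _ x
  | add x y _ _ hx hy => rw [map_add]; exact add_mem hx hy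
  | inv x _ hx => rw [map_inv₀]; exact inv_mem hx
  | mul x y _ _ hx hy => rw [map_mul]; exact mul_mem hx hy

theorem pf_KAB : T_KAB := by
  intro F _ r γ m hm hF E hE _
  have hfin := CY_fin m hm
  have hac : IsAlgClosure ℚ Om := AlgebraicClosure.instIsAlgClosure ℚ
  have hgal : IsGalois ℚ Om := IsAlgClosure.isGalois ℚ Om
  refine ⟨CY m ⊓ E.restrictScalars ℚ, inf_le_left, fun z hz => hz.2, fun σ hσ hγ z hz => ?_⟩
  obtain ⟨h, τ, h1, h2, h3⟩ := split_aut (CY m) (E.restrictScalars ℚ)
    (fun τ z hz => CY_stable m τ z hz) σ (fun z hz1 hz2 => hσ z ⟨hz1, hz2⟩)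
  have hσF : ∀ z ∈ F, σ z = z := by
    intro z hz
    rw [hF] at hz
    unfold FT at hz
    induction hz using IntermediateField.adjoin_induction with
    | mem x hx =>
      obtain ⟨i, rfl⟩ := hx
      exact hγ i
    | algebraMap x => exact AlgEquiv.commutes σ x
    | add x y _ _ hx hy => rw [map_add, hx, hy]
    | inv x _ hx => rw [map_inv₀, hx]
    | mul x y _ _ hx hy => rw [map_mul, hx, hy]
  have hFE : ∀ z ∈ F, z ∈ E := fun z hz => E.algebraMap_mem ⟨z, hz⟩
  have hhF : ∀ z ∈ F, h z = z := by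
    intro z hz
    have h4 := h3 z
    rw [h2 z (hFE z hz), hσF z hz] at h4
    exact h4.symm
  have hhL : ∀ z ∈ Lv F Om γ m 1, h z = z := by
    intro z hz
    unfold Lv at hz
    induction hz using IntermediateField.adjoin_induction with
    | mem x hx =>
      rcases hx with hx | ⟨i, hx⟩
      · exact h1 x (IntermediateField.subset_adjoin ℚ _ hx)
      · rw [pow_one] at hx
        rw [hx]
        exact hhF _ (γ i).2
    | algebraMap x => exact hhF _ x.2
    | add x y _ _ hx hy => rw [map_add, hx, hy]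
    | inv x _ hx => rw [map_inv₀, hx]
    | mul x y _ _ hx hy => rw [map_mul, hx, hy]
  rw [h3 z, h2 z hz]
  exact hhL z (hE hz)

end Pool.Agent.H54.GG
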